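import Pool.Agent.TH444.ML.Done
import Pool.Agent.TH444.ML.Perm
import Pool.Agent.TH444.ML.Real

set_option autoImplicit false

/-! Malle's conjecture for `C₂ ≀ H`, with the predicted power of the logarithm, over all number fields
which contain a given one. -/

namespace Pool.Agent.Q300.ML

open Filter
open Pool.Agent.H391R2 (Wr)
open Pool.Agent.TH444.TW (Cls RegularOver)

/-- `G ≤ S_d` is, up to a bijection `f` of `{1, ..., d}` with `H × {0, 1}`, the wreath product
`C₂ ≀ H`: it consists of all permutations `π` for which there is `h ∈ H` such that `π` maps the block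
`{x} × {0, 1}` to the block `{h x} × {0, 1}`, for all `x ∈ H`. -/
def IsC2Wreath (H : Type) [Group H] {d : ℕ} (G : Subgroup (Equiv.Perm (Fin d))) : Prop :=
  ∃ f : Fin d ≃ H × Bool, ∀ π : Equiv.Perm (Fin d), π ∈ G ↔ ∃ h : H, ∀ i, (f (π i)).1 = h * (f i).1

/-- The index of a permutation: `d` minus the number of its cycles, fixed points included. -/
def ind {d : ℕ} (g : Equiv.Perm (Fin d)) : ℕ := g.cycleType.sum - Multiset.card g.cycleType

/-- `ind(G)`, the minimum of the indices of the elements `g ≠ 1` of `G`. -/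
noncomputable def indG {d : ℕ} (G : Subgroup (Equiv.Perm (Fin d))) : ℕ :=
  sInf {j : ℕ | ∃ g ∈ G, g ≠ 1 ∧ j = ind g}

/-- `g` and `h` are `K`-conjugate: `h` is conjugate in `G` to `g ^ a` for some `a` in the image of the
cyclotomic character of `K` on the roots of unity of order `|G|`, that is, some automorphism over `K`
of the algebraic closure maps every root of unity `ζ` with `ζ ^ |G| = 1` to `ζ ^ a`. -/
def KConj (K : Type) [Field K] {d : ℕ} {G : Subgroup (Equiv.Perm (Fin d))} (g h : G) : Prop :=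
  ∃ (a : ℕ) (σ : AlgebraicClosure K ≃ₐ[K] AlgebraicClosure K),
    (∀ ζ : AlgebraicClosure K, ζ ^ Nat.card G = 1 → σ ζ = ζ ^ a) ∧ IsConj (g ^ a) h

/-- `β_K(G)`: the number of the `K`-conjugacy classes of the elements of `G` of index `ind(G)`. -/
noncomputable def beta (K : Type) [Field K] {d : ℕ} (G : Subgroup (Equiv.Perm (Fin d))) : ℕ :=
  Nat.card (Quot fun g h : {g : G // ind (g : Equiv.Perm (Fin d)) = indG G} => KConj K g.1 h.1)

/-- The fields `L` between `K` and its algebraic closure, of degree `d` over `K`, whose Galois group,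
acting on the embeddings, is `G` (up to numbering), and whose relative discriminant has norm at most
`B` (that is, `|d_L| ≤ B |d_K| ^ d`). -/
def Ext (K : Type) [Field K] [NumberField K] (d : ℕ) (G : Subgroup (Equiv.Perm (Fin d)))
    (B : ℝ) : Set (IntermediateField K (AlgebraicClosure K)) :=
  {L | Module.finrank K L = d ∧
    (∃ e : (L →ₐ[K] AlgebraicClosure K) ≃ Fin d, ∀ π : Equiv.Perm (Fin d),
      π ∈ G ↔ ∃ σ : AlgebraicClosure K ≃ₐ[K] AlgebraicClosure K,
        ∀ φ : L →ₐ[K] AlgebraicClosure K, e (σ.toAlgHom.comp φ) = π (e φ)) ∧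
    ∃ h : NumberField L,
      ((|@NumberField.discr L _ h| : ℤ) : ℝ) ≤ B * ((|NumberField.discr K| : ℤ) : ℝ) ^ d}

/-- The number of these fields up to `K`-isomorphism. -/
noncomputable def N (K : Type) [Field K] [NumberField K] (d : ℕ)
    (G : Subgroup (Equiv.Perm (Fin d))) (B : ℝ) : ℕ :=
  Nat.card (Quot fun L L' : Ext K d G B => Nonempty (L.1 ≃ₐ[K] L'.1))

/-- Malle's asymptotic formula for `G` over `K`: there is `C > 0` with
`N(K, G; B) ~ C B ^ (1 / ind(G)) (log B) ^ (β_K(G) - 1)`. -/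
def MalleOver (K : Type) [Field K] [NumberField K] (d : ℕ) (G : Subgroup (Equiv.Perm (Fin d))) :
    Prop :=
  ∃ C : ℝ, 0 < C ∧ Tendsto (fun B : ℝ => (N K d G B : ℝ) /
    (B ^ ((1 : ℝ) / (indG G : ℝ)) * Real.log B ^ (beta K G - 1))) atTop (nhds C)

/-- The wreath product `C₂ ≀ H` in its action on `H × {0, 1}` exists and is transitive, and over every
number field `K` which contains `K₀` Malle's asymptotic formula holds for it. -/
def MalleAbove (K₀ H : Type) [Field K₀] [Group H] : Prop :=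
  (∃ (d : ℕ) (G : Subgroup (Equiv.Perm (Fin d))), d = 2 * Nat.card H ∧ IsC2Wreath H G ∧
    ∀ i j : Fin d, ∃ g ∈ G, g i = j) ∧
  ∀ (d : ℕ) (G : Subgroup (Equiv.Perm (Fin d))), IsC2Wreath H G →
    ∀ (K : Type) [Field K] [NumberField K] [Algebra K₀ K], MalleOver K d G

/-- The group `C₂ ≀ H` exists, and is transitive. -/
theorem exists_group (H : Type) [Group H] [Finite H] : ∃ (d : ℕ)
    (G : Subgroup (Equiv.Perm (Fin d))), d = 2 * Nat.card H ∧ IsC2Wreath H G ∧
      ∀ i j : Fin d, ∃ g ∈ G, g i = j := by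
  have hcard : Nat.card (H × Bool) = 2 * Nat.card H := by
    rw [Nat.card_prod, mul_comm]
    simp
  let f : Fin (2 * Nat.card H) ≃ H × Bool := (Finite.equivFinOfCardEq hcard).symm
  let G : Subgroup (Equiv.Perm (Fin (2 * Nat.card H))) :=
    { carrier := {π | ∃ h : H, ∀ i, (f (π i)).1 = h * (f i).1}
      one_mem' := ⟨1, fun i => by simp⟩
      mul_mem' := by
        rintro π ρ ⟨h, hh⟩ ⟨h', hh'⟩
        refine ⟨h * h', fun i => ?_⟩
        rw [Equiv.Perm.mul_apply, hh, hh', mul_assoc]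
      inv_mem' := by
        rintro π ⟨h, hh⟩
        refine ⟨h⁻¹, fun i => ?_⟩
        have h1 := hh (π⁻¹ i)
        rw [show π (π⁻¹ i) = i from π.apply_symm_apply i] at h1
        rw [h1, inv_mul_cancel_left] }
  refine ⟨2 * Nat.card H, G, rfl, ⟨f, fun π => Iff.rfl⟩, fun i j => ?_⟩
  let t : Equiv.Perm (H × Bool) :=
    (Equiv.mulLeft ((f j).1 * (f i).1⁻¹)).prodCongr (Equiv.swap (f i).2 (f j).2)
  refine ⟨f.trans (t.trans f.symm), ⟨(f j).1 * (f i).1⁻¹, fun x => ?_⟩, ?_⟩
  · simp [t]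
  · change f.symm (t (f i)) = j
    rw [Equiv.symm_apply_eq]
    exact Prod.ext (by simp [t]) (by simp [t])

theorem indG_eq {H : Type} [Group H] [Finite H] {d : ℕ} {G : Subgroup (Equiv.Perm (Fin d))}
    (hG : IsC2Wreath H G) : indG G = 1 := by
  have h := Pool.Agent.TH444.ML.least_ind (H := H) hG
  have h2 : sInf {j : ℕ | ∃ g ∈ G, g ≠ 1 ∧ j = ind g} = 1 := h.csInf_eq
  exact h2

theorem beta_eq (K : Type) [Field K] {H : Type} [Group H] [Finite H] (h2 : 2 ≤ Nat.card H) {d : ℕ}
    {G : Subgroup (Equiv.Perm (Fin d))} (hG : IsC2Wreath H G) : beta K G = 1 := by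
  have hi := indG_eq hG
  unfold beta
  rw [Nat.card_eq_one_iff_unique]
  constructor
  · constructor
    rintro ⟨g⟩ ⟨h⟩
    refine Quot.sound ⟨1, AlgEquiv.refl, fun ζ _ => by simp, ?_⟩
    rw [pow_one]
    exact Pool.Agent.TH444.ML.conj_of_ind_one h2 hG g.1 h.1 (g.2.trans hi) (h.2.trans hi)
  · obtain ⟨g, h1, -, h3⟩ := Pool.Agent.TH444.ML.exists_ind_one (H := H) hG
    exact ⟨Quot.mk _ ⟨⟨g, h1⟩, h3.trans hi.symm⟩⟩

theorem malleOver_of (K : Type) [Field K] [NumberField K] (H : Type) [Group H] [Finite H]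
    (h2 : 2 ≤ Nat.card H) (U : Subgroup H) (hU : U.normalCore = ⊥)
    (hc : 8 * U.index * (U.index + 1) ≤ Nat.card H)
    (hne : (Pool.Agent.TH444.ML.Gal K (AlgebraicClosure K) H).Nonempty) (d : ℕ)
    (G : Subgroup (Equiv.Perm (Fin d))) (hG : IsC2Wreath H G) : MalleOver K d G := by
  obtain ⟨c, hc0, hlim⟩ :=
    Pool.Agent.TH444.ML.asymp_iso Pool.Agent.TH444.ML.rest K H h2 U hU hc hne G hG
  have hlim' : Tendsto (fun B : ℝ => (N K d G B : ℝ) / B) atTop (nhds c) := hlim
  refine ⟨c, hc0, ?_⟩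
  rw [indG_eq hG, beta_eq K h2 hG]
  simpa using hlim'

/-- Regular realizations over larger fields. -/
theorem regular_mono {k₀ K : Type} [Field k₀] [Field K] [Algebra k₀ K] [Infinite K] {A : Type}
    [Group A] [Finite A] (h : RegularOver k₀ A) : RegularOver K A := by
  obtain ⟨F, i1, i2, i3, i4, i5, i6, i7, i8, γ, -, h2⟩ :=
    Pool.Agent.TH444.TW.reg_base k₀ K A (Pool.Agent.TH444.TW.regSol_of_regularOver h)
  have h3 : i3 = i4 := by
    refine Algebra.algebra_ext _ _ fun x => ?_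
    have h4 := @IsScalarTower.algebraMap_apply K K F _ _ _ _ i3 i4 i6 x
    exact h4.symm
  subst h3
  exact ⟨F, i1, i2, i3, i5, i7, i8, ⟨γ⟩, h2⟩

/-- The class of homomorphisms over a larger field. -/
theorem cls_mono {k₀ K : Type} [Field k₀] [Field K] [Algebra k₀ K] [Infinite K] {W W' : Type}
    [Group W] [Group W'] {p : W' →* W} (h : Cls k₀ p) : Cls K p := by
  induction h with
  | abelian p s hs hfin hcomm => exact Cls.abelian p s hs hfin hcomm
  | inner p A hA hp => exact Cls.inner p A (regular_mono hA) hp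
  | wreath p G n hn hp => exact Cls.wreath p G n hn hp
  | kernel p hs I G hZ hT n hn hN => exact Cls.kernel p hs I G hZ hT n hn hN
  | comp p q _ _ ih1 ih2 => exact Cls.comp p q ih1 ih2
  | quot p q hq _ ih => exact Cls.quot p q hq ih

theorem gal_of_cls (K : Type) [Field K] [NumberField K] (H : Type) [Group H] [Finite H]
    (h : Cls K (1 : H →* Unit)) : (Pool.Agent.TH444.ML.Gal K (AlgebraicClosure K) H).Nonempty := by
  have hs : Subsingleton (K ≃ₐ[K] K) := ⟨fun σ τ => AlgEquiv.ext fun x => by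
    have h1 : ∀ ρ : K ≃ₐ[K] K, ρ x = x := fun ρ => ρ.commutes x
    rw [h1, h1]⟩
  let e : Unit →* (K ≃ₐ[K] K) := 1
  have he : Cls K e := Cls.abelian e 1 (fun _ => Subsingleton.elim _ _) inferInstance
    (fun _ _ _ _ => Subsingleton.elim _ _)
  exact Pool.Agent.TH444.ML.gal_nonempty K (AlgebraicClosure K) K H (e.comp 1) (Cls.comp e 1 he h)

theorem malleAbove_of_cls (K₀ H : Type) [Field K₀] [Group H] [Finite H]
    (h : Cls K₀ (1 : H →* Unit)) (U : Subgroup H) (hU : U.normalCore = ⊥)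
    (hc : 8 * U.index * (U.index + 1) ≤ Nat.card H) : MalleAbove K₀ H := by
  refine ⟨exists_group H, fun d G hG K _ _ _ => ?_⟩
  have h1 : 1 ≤ U.index := Nat.one_le_iff_ne_zero.2 Subgroup.index_ne_zero_of_finite
  have h2 : 2 ≤ Nat.card H := by nlinarith
  have hinf : Infinite K := Infinite.of_injective _ (algebraMap ℚ K).injective
  exact malleOver_of K H h2 U hU hc (gal_of_cls K H (cls_mono h)) d G hG

end Pool.Agent.Q300.ML
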